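import Mathlib
import Pool.Agent.Lib.MP_48a29b_ag.Defs
import Pool.Agent.Lib.MP_48a29b_ag.Neg
import Pool.Agent.Lib.MP_48a29b_ag.Pos

/-!
The containment `I^(m) ⊆ 𝔪^(rn-r) I^r` (`m ≥ rn`, `I` radical, `R` regular local of dimension `n`)
holds exactly when `n ≤ 2`.  For `n ≥ 3` it fails for a prime `P` defining the monomial curve with
exponents `n+2, n+3, n^2+3n+1` in three of the parameters of `R` (for `n = 3`: `5, 6, 19`).
-/

namespace Pool.Agent.Results.MP_48a29b_ag.ContainmentFails

open IsLocalRing Pool.Agent.Lib.MP_48a29b_ag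

universe u

/-- There are regular local rings of every dimension in every universe. -/
theorem exists_regular (n : ℕ) :
    ∃ (R : Type u) (_ : CommRing R) (_ : IsRegularLocalRing R), ringKrullDim R = n := by
  have hdim : ringKrullDim (MvPolynomial (Fin n) (ULift.{u} ℚ)) = n := by
    rw [MvPolynomial.ringKrullDim_of_isNoetherianRing, ringKrullDim_eq_zero_of_field]
    simp
  have : FiniteRingKrullDim (MvPolynomial (Fin n) (ULift.{u} ℚ)) := by
    rw [finiteRingKrullDim_iff_ne_bot_and_top, hdim]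
    exact ⟨WithBot.coe_ne_bot, fun h ↦ by
      have h2 : ((n : ℕ∞) : WithBot ℕ∞) = ((⊤ : ℕ∞) : WithBot ℕ∞) := h
      exact ENat.natCast_ne_top n (WithBot.coe_inj.1 h2)⟩
  obtain ⟨p, hp, hph⟩ :=
    Ideal.exists_isMaximal_height (R := MvPolynomial (Fin n) (ULift.{u} ℚ))
  have : p.IsPrime := hp.isPrime
  refine ⟨Localization.AtPrime p, inferInstance, inferInstance, ?_⟩
  rw [IsLocalization.AtPrime.ringKrullDim_eq_height p (Localization.AtPrime p), hph, hdim]

theorem result :
    (∃ (R : Type u) (_ : CommRing R) (_ : IsRegularLocalRing R) (n : ℕ),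
      ringKrullDim R = n ∧ ¬ Containment R n) ∧
    ∀ (R : Type u) [CommRing R] [IsRegularLocalRing R] (n : ℕ), ringKrullDim R = n →
      (Containment R n ↔ n ≤ 2) ∧
      (3 ≤ n → ∃ P : Ideal R, P.IsPrime ∧
        ¬ symbolicPower P ((n + 1) * n) ≤
          maximalIdeal R ^ ((n + 1) * n - (n + 1)) * P ^ (n + 1)) := by
  have key : ∀ (R : Type u) [CommRing R] [IsRegularLocalRing R] (n : ℕ), ringKrullDim R = n →
      3 ≤ n → ¬ Containment R n := by
    intro R _ _ n hdim h3 hC
    obtain ⟨P, hP, hnot⟩ := not_containment n hdim h3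
    refine hnot (hC P hP.isRadical hP.ne_top (n + 1) ((n + 1) * n) (by omega) ?_ le_rfl)
    nlinarith
  constructor
  · obtain ⟨R, hR1, hR2, hdim⟩ := exists_regular.{u} 3
    exact ⟨R, hR1, hR2, 3, hdim, key R 3 hdim le_rfl⟩
  · intro R _ _ n hdim
    refine ⟨⟨fun hC ↦ ?_, containment_of_le_two n hdim⟩, not_containment n hdim⟩
    by_contra hcon
    exact key R n hdim (by omega) hC

end Pool.Agent.Results.MP_48a29b_ag.ContainmentFails
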